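import Pool.Agent.Lib_MP_fbc045_ins.Core

/-!
# MP_fbc045_an, Q1: the answer is yes, on every segment, with almost full length
-/

set_option autoImplicit false

open MeasureTheory Pool.Agent.MPfbc045ins

namespace Pool.Agent.Results.MP_fbc045_an.EverySegment

/-- For every segment `[p, q]` of the plane there are a homeomorphism `f` of the plane of locally
exponentially integrable distortion with `f [p, q] = [p, q]` and a compact set `E` in `[p, q]` of
length at least `0.999 |p - q|` such that `f E` is the copy of the ternary Cantor set that spans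
`[p, q]`. Off the line through `p` and `q` the map `f` is differentiable with positive Jacobian and
its distortion at `z` is at most a constant times `1 + log (1 + 2 |p - q| / dist)`, where `dist`
is the distance from `z` to the line. -/
theorem result (p q : ℂ) (hpq : p ≠ q) : ∃ (f : ℂ ≃ₜ ℂ) (E : Set ℂ),
    HasExpDistortion f ∧
    f '' segment ℝ p q = segment ℝ p q ∧
    E ⊆ segment ℝ p q ∧ IsCompact E ∧
    ENNReal.ofReal (0.999 * dist p q) ≤ Measure.hausdorffMeasure 1 E ∧
    f '' E = (fun c : ℝ => p + c • (q - p)) '' cantorSet ∧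
    ∀ z : ℂ, ((z - p) / (q - p)).im ≠ 0 →
      DifferentiableAt ℝ f z ∧ 0 < (fderiv ℝ f z).det ∧
      ‖fderiv ℝ f z‖ ^ 2 ≤ 64 * 81 ^ 31 *
        (1 + Real.log (1 + 2 / |((z - p) / (q - p)).im|)) * (fderiv ℝ f z).det := by
  obtain ⟨f, E, h1, h2, h3, h4, h5, h6, h7⟩ := main p q hpq
  refine ⟨f, E, h1, h2, h3, h4, h5, h6, fun z hz => ?_⟩
  obtain ⟨h8, h9, h10⟩ := h7 z hz
  refine ⟨h8, h9, ?_⟩
  have hA : 8 * Pool.Agent.MPfbc045.A = 64 * 81 ^ 31 := by
    unfold Pool.Agent.MPfbc045.A
    norm_num
  rwa [hA] at h10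

end Pool.Agent.Results.MP_fbc045_an.EverySegment
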